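import Pool.Agent.P.MP_7cb106_nt.As.Glue
import Pool.Agent.P.MP_7cb106_nt.As.Wey
import Pool.Agent.P.MP_7cb106_nt.As.Cmp
import Pool.Agent.P.MP_7cb106_nt.As.Defs2

set_option autoImplicit false

namespace Pool.Agent.Results.MP_7cb106_nt.AsymptoticMultiplicities

open Pool.Agent.P.MP_7cb106_nt Pool.Agent.P.MP_7cb106_nt.As Module IsLocalRing

theorem result (p n : ℕ) [Fact p.Prime] (hn : 0 < n) (A O F J W : Type)
    [CommRing A] [IsDomain A] [IsDiscreteValuationRing A] [IsAdicComplete (maximalIdeal A) A]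
    [Finite (ResidueField A)] [CharP (ResidueField A) p]
    [CommRing O] [Algebra O ℂ] (hO : Function.Injective (algebraMap O ℂ))
    [Field F] [Finite F] [CharP F p] [Algebra O F] [Fintype J] [Nonempty J] (φ : J → A →+* O)
    [AddCommGroup W] [Module F W] (a : Representation F (GL (Fin n) A) W) (M : ℕ)
    (hM : RegMult a M) :
    ∃ C : ℝ, ∀ (U V : Type) [AddCommGroup U] [Module O U] [Module.Free O U] [Module.Finite O U]
      [AddCommGroup V] [Module O V] [Module.Free O V] [Module.Finite O V]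
      (σ : Representation O (GL (Fin n) A) U) (L : Representation O (GL (Fin n) A) V) (m D : ℕ),
      SmoothIrr σ → Algebraic F φ L → D = finrank O U * finrank O V →
      Central (extend F (σ.tprod L)) a → HasMult (extend F (σ.tprod L)) a m →
      |(m : ℝ) - D * M * dens A n| ≤ C * (D : ℝ) ^ (1 - 1 / (7 * (n : ℝ) ^ 2)) := by
  obtain ⟨C, h⟩ := glue p_WEYL p_CMP p n hn A O F J W hO φ a M hM
  refine ⟨C, fun U V _ _ _ _ _ _ _ _ σ L m D h1 ⟨⟨l, h2, h3⟩, h4⟩ h5 h6 h7 => ?_⟩
  have := h U V σ L l m h1.1 h1.2 h2 h3 h4 h6 h7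
  rw [h5, Nat.cast_mul, dens, mul_assoc, mul_div_assoc', mul_comm (M : ℝ)]
  exact this

end Pool.Agent.Results.MP_7cb106_nt.AsymptoticMultiplicities
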