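import Pool.Agent.P.MP_7cb106_nt.GK.All2

/-! Admissible unitary Banach representations of open subgroups of `GL_n(K)` whose locally analytic
vectors have an infinitesimal character at one embedding, possibly in a family, have
Gelfand-Kirillov dimension at most `[K : ℚ_p] n (n - 1) / 2`. -/

set_option autoImplicit false

namespace Pool.Agent.Results.MP_7cb106_nt.GKBound

open Pool.Agent.P.MP_7cb106_nt.GK Filter Topology

theorem result (p : ℕ) [Fact p.Prime] (K L B : Type) [Field K] [Algebra ℚ_[p] K]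
    [FiniteDimensional ℚ_[p] K] [NormedField L] [NormedAlgebra ℚ_[p] L] [FiniteDimensional ℚ_[p] L]
    [NormedAddCommGroup B] [NormedSpace L B] [IsUltrametricDist B] [CompleteSpace B]
    (σ : K →ₐ[ℚ_[p]] L) (n g : ℕ) (U : Subgroup (GL (Fin n) K)) (ρ : U →* Module.End L B)
    (x : Fin g → Module.End L B) (φ : ℕ → (Fin g → ℕ) → L)
    (val : ∀ v : B, ∃ c : L, ‖v‖ = ‖c‖)
    (opn : ∃ l, ∀ h : GL (Fin n) K, Cong σ l h → h ∈ U)
    (iso : ∀ h v, ‖ρ h v‖ = ‖v‖)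
    (cont : ∀ (v : B) (ε : ℝ), 0 < ε → ∃ l, ∀ h : U, Cong σ l h.val → ‖ρ h v - v‖ ≤ ε)
    (x_le : ∀ j v, ‖x j v‖ ≤ ‖v‖)
    (x_nil : ∀ j v, Tendsto (fun m : ℕ => (x j ^ m) v) atTop (𝓝 0))
    (x_x : ∀ i j, Commute (x i) (x j)) (x_rho : ∀ j h, Commute (x j) (ρ h))
    (adm : ∀ l, ∃ m₀ : ℕ, ∀ (m : ℕ) (v : Fin m → B), (∀ i, Fix σ ρ x l (v i)) → Orth L v → m ≤ m₀)
    (conv : ∀ (k : ℕ) (r : ℝ), 0 < r → r < 1 → ∃ C : ℝ, ∀ β, ‖φ k β‖ * r ^ (∑ j, β j) ≤ C)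
    (inf : ∀ k, 1 ≤ k → k ≤ n → ∀ v, An σ ρ x v →
      HasSum (fun β => φ k β • xp x β v) (Cap (Eop σ ρ) k v)) :
    ∃ C' : ℕ, ∀ (l m : ℕ) (v : Fin m → B), (∀ i, Fix σ ρ x l (v i)) → Orth L v →
      m ≤ C' * p ^ (Module.finrank ℚ_[p] K * n.choose 2 * l) :=
  all_MAIN2 p K L B σ n g U ρ x φ val opn iso cont x_le x_nil x_x x_rho adm conv inf

end Pool.Agent.Results.MP_7cb106_nt.GKBound
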