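import Pool.Agent.P.MP_7cb106_nt.QN.Bridge

/-! Control theorem for the prime ideals of Iwasawa algebras in characteristic `p`. -/

set_option autoImplicit false

namespace Pool.Agent.Results.MP_7cb106_nt.IwasawaPrimes

open Pool.Agent.P.MP_7cb106_nt.QN

theorem result (p : ℕ) [Fact p.Prime] (k : Type) [Field k] [CharP k p]
    (G : Type) [Group G] [TopologicalSpace G] [IsTopologicalGroup G] [CompactSpace G] [T2Space G]
    [TotallyDisconnectedSpace G] (G0 : Subgroup G) (hnormal : G0.Normal)
    (hopen : IsOpen (G0 : Set G)) (hunif : Uniform p G0)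
    (hsound : ∀ H : Subgroup G, H ≤ G0 → IsClosed (H : Set G) →
      (∀ g ∈ G0, ∀ x ∈ H, g * x * g⁻¹ ∈ H) → H.normalCore.relIndex H ≠ 0)
    (P : TwoSidedIdeal (Iw k G)) (hprime : IsPrime P) :
    GenBy P (sub k (Delta (el k) P)) :=
  control p k G G0 hnormal hopen hunif hsound P hprime

end Pool.Agent.Results.MP_7cb106_nt.IwasawaPrimes
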