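import Pool.Agent.P.MP_7cb106_nt.PG.All

/-! A module which is finite free over `O[[y]][[U]]`, `U` a congruence subgroup of `GL_n(K)`, with a
commuting action of a domain `R` of the expected dimension through which the centre of the
enveloping algebra acts at one embedding, is Cohen-Macaulay at every point of the generic fibre of
`R`. The statement is written for the dual Banach space `B`. -/

set_option autoImplicit false

namespace Pool.Agent.Results.MP_7cb106_nt.PatchedFlat

open Pool.Agent.P.MP_7cb106_nt.GK Pool.Agent.P.MP_7cb106_nt.PG MvPowerSeries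

theorem result (p : ℕ) [Fact p.Prime] (K L B R E : Type) [Field K] [Algebra ℚ_[p] K]
    [FiniteDimensional ℚ_[p] K] [NormedField L] [NormedAlgebra ℚ_[p] L] [FiniteDimensional ℚ_[p] L]
    [IsUltrametricDist L] [NormedAddCommGroup B] [NormedSpace L B] [IsUltrametricDist B]
    [CompleteSpace B] [CommRing R] [IsDomain R] [Field E] [Algebra L E] [FiniteDimensional L E]
    (σ : K →ₐ[ℚ_[p]] L) (n l₀ m h g s : ℕ) (U : Subgroup (GL (Fin n) K)) (ρ : U →* Module.End L B)
    (fn : B →ₗ[L] (Fin m × (Fin h → ℕ) × U → L)) (κ : MvPowerSeries (Fin g) (Ob L) →+* R)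
    (act : R →+* Module.End L B) (z : Fin s → R) (idx : Fin h → Fin s) (φ : ℕ → (Fin s → ℕ) → L)
    (χ : R →+* E)
    (lev : 2 ≤ l₀) (grp : ∀ u, u ∈ U ↔ Cong σ l₀ u) (pos : 0 < m)
    (free : Cofree σ ρ (fun i => act (z (idx i))) fn)
    (fin : κ.Finite) (lin : ∀ c v, act (κ (C c)) v = (c : L) • v)
    (act_le : ∀ r v, ‖act r v‖ ≤ ‖v‖) (act_rho : ∀ r u, Commute (act r) (ρ u))
    (inf : InfChar σ ρ (fun i => act (z i)) φ)
    (dim : g ≤ h + Module.finrank ℚ_[p] K * (n + 1).choose 2)
    (pt : ∀ c : Ob L, χ (κ (C c)) = algebraMap L E c) :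
    CoReg (fun j => Polynomial.aeval (act (κ (X j))) (minpoly L (χ (κ (X j))))) ∧
      ∃ v : B, v ≠ 0 ∧ ∀ r, χ r = 0 → act r v = 0 :=
  all_PF2 p K L B R σ n l₀ m h g s U ρ fn κ act z idx φ lev grp pos free.sup free.trans free.shift
    free.onto free.cont fin lin act_le act_rho inf.nil inf.conv inf.inf dim E χ pt
    (Or.inl inferInstance)

end Pool.Agent.Results.MP_7cb106_nt.PatchedFlat
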